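import Pool.Agent.TH279.GR.Defs

/-! Restriction of multipliers to the prime of one step of a filtration (job GR-G8). -/

set_option autoImplicit false

open MvPolynomial Module Filter Topology

namespace Pool.Agent.TH802.GRTheta

open Pool.Agent.TH279.GR

variable {a b : ℕ}

lemma im_apply (P : Ideal (Co a b)) (f : Co a b) :
    im P f = algebraMap (Co a b ⧸ P) (KK P) (Ideal.Quotient.mk P f) := rfl

lemma im_zero_iff (P : Ideal (Co a b)) {f : Co a b} : im P f = 0 ↔ f ∈ P := by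
  rw [im_apply, ← Ideal.Quotient.eq_zero_iff_mem]
  exact IsLocalization.to_map_eq_zero_iff (KK P) le_rfl

lemma im_eq_iff (P : Ideal (Co a b)) {f g : Co a b} : im P f = im P g ↔ f - g ∈ P := by
  rw [← im_zero_iff, map_sub, sub_eq_zero]

lemma im_unit {P : Ideal (Co a b)} (hP : P.IsPrime) {g : Co a b} (hg : g ∉ P) :
    ∃ z : KK P, im P g * z = 1 := by
  have h1 : Ideal.Quotient.mk P g ≠ 0 := fun h => hg (Ideal.Quotient.eq_zero_iff_mem.1 h)
  have h2 : IsDomain (Co a b ⧸ P) := Ideal.Quotient.isDomain P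
  have h3 : Ideal.Quotient.mk P g ∈ nonZeroDivisors (Co a b ⧸ P) :=
    mem_nonZeroDivisors_of_ne_zero h1
  have h4 : IsUnit (im P g) := IsLocalization.map_units (KK P) (⟨_, h3⟩ : nonZeroDivisors _)
  obtain ⟨z, hz⟩ := h4.exists_right_inv
  exact ⟨z, hz⟩

lemma comp_mul {x k : Co a b} {c e : ℕ} (hx : x ∈ bh a b c e) (u v : ℕ) :
    weightedHomogeneousComponent (wt a b) (c + u, e + v) (x * k) =
      x * weightedHomogeneousComponent (wt a b) (u, v) k := by
  classical
  have hx' : IsWeightedHomogeneous (wt a b) x (c, e) := hx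
  ext s
  rw [coeff_weightedHomogeneousComponent, coeff_mul, coeff_mul]
  split_ifs with hs
  · refine Finset.sum_congr rfl fun y hy => ?_
    rw [Finset.HasAntidiagonal.mem_antidiagonal] at hy
    rw [coeff_weightedHomogeneousComponent]
    by_cases h0 : coeff y.1 x = 0
    · rw [h0, zero_mul, zero_mul]
    · have h1 := hx' h0
      rw [← hy, map_add, h1] at hs
      have h2 : Finsupp.weight (wt a b) y.2 = (u, v) := by
        have h3 := Prod.ext_iff.1 hs
        simp only [Prod.fst_add, Prod.snd_add] at h3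
        apply Prod.ext
        · have := h3.1
          simp only
          omega
        · have := h3.2
          simp only
          omega
      rw [if_pos h2]
  · symm
    apply Finset.sum_eq_zero
    intro y hy
    rw [Finset.HasAntidiagonal.mem_antidiagonal] at hy
    rw [coeff_weightedHomogeneousComponent]
    by_cases h0 : coeff y.1 x = 0
    · rw [h0, zero_mul]
    · have h1 := hx' h0
      rw [if_neg, mul_zero]
      intro h2
      apply hs
      rw [← hy, map_add, h1, h2]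
      rfl

/-- homogeneous elements of `N' + (x)` -/
lemma split {N' : Ideal (Co a b)} (hN : BHom N') {x : Co a b} {c e : ℕ} (hx : x ∈ bh a b c e)
    {f : Co a b} {u v : ℕ} (hf : f ∈ bh a b (c + u) (e + v)) (hfN : f ∈ N' ⊔ Ideal.span {x}) :
    ∃ n' ∈ N', ∃ k ∈ bh a b u v, f = n' + x * k := by
  obtain ⟨y, hy, z, hz, hyz⟩ := Submodule.mem_sup.1 hfN
  obtain ⟨k, hk⟩ := Ideal.mem_span_singleton'.1 hz
  refine ⟨weightedHomogeneousComponent (wt a b) (c + u, e + v) y, hN y hy _,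
    weightedHomogeneousComponent (wt a b) (u, v) k,
    weightedHomogeneousComponent_mem _ _ _, ?_⟩
  have h1 : weightedHomogeneousComponent (wt a b) (c + u, e + v) f = f :=
    IsWeightedHomogeneous.weightedHomogeneousComponent_same hf
  rw [← comp_mul hx, ← map_add, mul_comm x k, hk, hyz, h1]

/-- `y` is the image of `n' + x * h` with `n' ∈ N'` -/
def Re (P N' : Ideal (Co a b)) (x : Co a b) (y : KK P) (h : Co a b) : Prop :=
  ∃ n' ∈ N', y = im P (n' + x * h)

lemma Re.uniq {P N' : Ideal (Co a b)} (hPN : P ≤ N') {x : Co a b} {y : KK P} {h1 h2 : Co a b}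
    (H1 : Re P N' x y h1) (H2 : Re P N' x y h2) : im (col N' x) h1 = im (col N' x) h2 := by
  obtain ⟨n1, hn1, e1⟩ := H1
  obtain ⟨n2, hn2, e2⟩ := H2
  rw [im_eq_iff, mem_col]
  have h3 := (im_eq_iff P).1 (e1.symm.trans e2)
  have h4 : x * (h1 - h2) = (n1 + x * h1 - (n2 + x * h2)) - (n1 - n2) := by ring
  rw [h4]
  exact N'.sub_mem (hPN h3) (N'.sub_mem hn1 hn2)

lemma Re.add {P N' : Ideal (Co a b)} {x : Co a b} {y1 y2 : KK P} {h1 h2 : Co a b}
    (H1 : Re P N' x y1 h1) (H2 : Re P N' x y2 h2) : Re P N' x (y1 + y2) (h1 + h2) := by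
  obtain ⟨n1, hn1, e1⟩ := H1
  obtain ⟨n2, hn2, e2⟩ := H2
  refine ⟨n1 + n2, N'.add_mem hn1 hn2, ?_⟩
  rw [e1, e2, ← map_add]
  congr 1
  ring

lemma Re.smul {P N' : Ideal (Co a b)} {x : Co a b} {y1 : KK P} {h1 : Co a b}
    (H1 : Re P N' x y1 h1) (r : ℂ) : Re P N' x (r • y1) (r • h1) := by
  obtain ⟨n1, hn1, e1⟩ := H1
  refine ⟨r • n1, ?_, ?_⟩
  · rw [smul_eq_C_mul]
    exact N'.mul_mem_left _ hn1
  · rw [e1, ← map_smul, smul_add, mul_smul_comm]

lemma Re.mul {P N' : Ideal (Co a b)} {x : Co a b} {y1 : KK P} {h1 : Co a b}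
    (H1 : Re P N' x y1 h1) (g : Co a b) : Re P N' x (y1 * im P g) (h1 * g) := by
  obtain ⟨n1, hn1, e1⟩ := H1
  refine ⟨n1 * g, N'.mul_mem_right _ hn1, ?_⟩
  rw [e1, ← map_mul]
  congr 1
  ring

end Pool.Agent.TH802.GRTheta

namespace Pool.Agent.TH279.GR.G8

open Pool.Agent.TH279.GR Pool.Agent.TH802.GRTheta

variable {a b : ℕ}

/-- restriction of multipliers to the prime of one step of a filtration -/
theorem exists_theta {P N' N : Ideal (Co a b)} (hP : P.IsPrime) (hPh : BHom P) (hPN : P ≤ N')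
    {x : Co a b} {c e : ℕ} (h : Step N' N x c e) (hr : Rel (col N' x)) (m n q p u v : ℕ)
    (V : Submodule ℂ (KK P)) [FiniteDimensional ℂ V]
    (hV : ∀ ψ ∈ V, Mu P N m n q p (u + c) (v + e) ψ) :
    ∃ T : V →ₗ[ℂ] KK (col N' x),
      (∀ ψ : V, T ψ = 0 → Mu P N' m n q p (u + c) (v + e) ψ) ∧
      ∀ ψ : V, ∀ g ∈ bh a b (u + c + q) (v + e + p), ∃ f ∈ bh a b (u + m) (v + n),
        T ψ * im (col N' x) g = im (col N' x) f := by
  classical
  -- the decomposition
  have hdec : ∀ ψ : V, ∀ g ∈ bh a b (u + c + q) (v + e + p),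
      ∃ f ∈ bh a b (u + c + m) (v + e + n), ∃ n' ∈ N', ∃ k ∈ bh a b (u + m) (v + n),
        f = n' + x * k ∧ (ψ : KK P) * im P g = im P f := by
    intro ψ g hg
    obtain ⟨f, hf, hfe⟩ := hV ψ ψ.2 g hg
    obtain ⟨hf1, hf2⟩ := hf
    have hf1' : f ∈ bh a b (u + c + m) (v + e + n) := hf1
    have hf2' : f ∈ N' ⊔ Ideal.span {x} := by
      rw [← h.eq]
      exact hf2
    have e1 : u + c + m = c + (u + m) := by ring
    have e2 : v + e + n = e + (v + n) := by ring
    rw [e1, e2] at hf1'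
    obtain ⟨n', hn', k, hk, hfk⟩ := split h.hom h.mem hf1' hf2'
    exact ⟨f, hf1, n', hn', k, hk, hfk, hfe⟩
  -- the form `g0`
  obtain ⟨g0, hg0, hg0Q⟩ : ∃ g0 ∈ bh a b (u + c + q) (v + e + p), g0 ∉ col N' x := by
    by_contra hcon
    push Not at hcon
    exact hr (u + c + q) (v + e + p) fun g hg => hcon g hg
  obtain ⟨z, hz⟩ := im_unit h.prime hg0Q
  choose f0 hf0 n0 hn0 k0 hk0 hfk0 hfe0 using fun ψ : V => hdec ψ g0 hg0
  have hRe0 : ∀ ψ : V, Re P N' x ((ψ : KK P) * im P g0) (k0 ψ) := fun ψ =>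
    ⟨n0 ψ, hn0 ψ, by rw [hfe0 ψ, hfk0 ψ]⟩
  let T : V →ₗ[ℂ] KK (col N' x) :=
    { toFun := fun ψ => im (col N' x) (k0 ψ) * z
      map_add' := by
        intro ψ1 ψ2
        have h1 : im (col N' x) (k0 (ψ1 + ψ2)) = im (col N' x) (k0 ψ1 + k0 ψ2) := by
          refine Re.uniq hPN (hRe0 (ψ1 + ψ2)) ?_
          have h2 := (hRe0 ψ1).add (hRe0 ψ2)
          rw [← add_mul] at h2
          exact h2
        rw [h1, map_add, add_mul]
      map_smul' := by
        intro r ψ
        have h1 : im (col N' x) (k0 (r • ψ)) = im (col N' x) (r • k0 ψ) := by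
          refine Re.uniq hPN (hRe0 (r • ψ)) ?_
          have h2 := (hRe0 ψ).smul r
          rw [← smul_mul_assoc] at h2
          exact h2
        simp only [RingHom.id_apply]
        rw [h1, map_smul, smul_mul_assoc] }
  have hT : ∀ ψ : V, T ψ = im (col N' x) (k0 ψ) * z := fun _ => rfl
  -- the main property
  have hmain : ∀ ψ : V, ∀ g ∈ bh a b (u + c + q) (v + e + p), ∀ k : Co a b,
      Re P N' x ((ψ : KK P) * im P g) k → T ψ * im (col N' x) g = im (col N' x) k := by
    intro ψ g hg k hk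
    have h1 : Re P N' x ((ψ : KK P) * im P g0 * im P g) (k0 ψ * g) := (hRe0 ψ).mul g
    have h2 : Re P N' x ((ψ : KK P) * im P g * im P g0) (k * g0) := hk.mul g0
    have e : (ψ : KK P) * im P g0 * im P g = (ψ : KK P) * im P g * im P g0 := by ring
    rw [e] at h1
    have h3 := Re.uniq hPN h1 h2
    rw [map_mul, map_mul] at h3
    rw [hT]
    calc im (col N' x) (k0 ψ) * z * im (col N' x) g =
        (im (col N' x) (k0 ψ) * im (col N' x) g) * z := by ring
      _ = im (col N' x) k * (im (col N' x) g0 * z) := by rw [h3]; ring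
      _ = im (col N' x) k := by rw [hz, mul_one]
  refine ⟨T, ?_, ?_⟩
  · intro ψ hψ g hg
    obtain ⟨f, hf, n', hn', k, hk, hfk, hfe⟩ := hdec ψ g hg
    have h1 := hmain ψ g hg k ⟨n', hn', by rw [hfe, hfk]⟩
    rw [hψ, zero_mul] at h1
    have h2 : k ∈ col N' x := (im_zero_iff _).1 h1.symm
    refine ⟨f, ⟨hf, ?_⟩, hfe⟩
    have h3 : f ∈ N' := by
      rw [hfk]
      exact N'.add_mem hn' h2
    exact h3
  · intro ψ g hg
    obtain ⟨f, hf, n', hn', k, hk, hfk, hfe⟩ := hdec ψ g hg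
    exact ⟨k, hk, hmain ψ g hg k ⟨n', hn', by rw [hfe, hfk]⟩⟩

end Pool.Agent.TH279.GR.G8
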